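import Pool.Agent.H37.HH.QUO
import Pool.Agent.H37.CV.FM

/-!
# Half of all, row PHM: the function `phs`
-/

set_option autoImplicit false

open NumberField Complex Filter Topology MeasureTheory
open scoped ContDiff nonZeroDivisors

namespace Pool.Agent.H77.HH

open Pool.Agent.H33.HH Pool.Agent.H28.RC Pool.Agent.H37.CV Pool.Agent.H37.HH
open Pool.Agent.H3.CV (nm_mul nm_idS mem_pf idS_ne idS_dvd idS_le idS_union fin_pf)

section

variable {K : Type} [Field K] [NumberField K]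

theorem pf_top : pf (⊤ : Ideal (𝓞 K)) = ∅ := by
  rw [Finset.eq_empty_iff_forall_notMem]
  intro P hP
  rw [mem_pf (by exact top_ne_bot)] at hP
  exact P.2.1.ne_top (top_le_iff.1 hP)

theorem qu_top : qu (⊤ : Ideal (𝓞 K)) ∅ = ⊤ := qu_eq (by rw [idS_empty, Ideal.top_mul])

theorem qu_empty (f : Ideal (𝓞 K)) : qu f ∅ = f := qu_eq (by rw [idS_empty, Ideal.top_mul])

theorem nm_top : nm (⊤ : Ideal (𝓞 K)) = 1 := by
  rw [nm, Ideal.absNorm_top, Nat.cast_one]

theorem ph_top : ph (⊤ : Ideal (𝓞 K)) = 1 := by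
  rw [ph, pf_top, Finset.prod_empty, nm_top, mul_one]

theorem phs_top : phs (⊤ : Ideal (𝓞 K)) = 1 := by
  rw [phs, pf_top, Finset.powerset_empty, Finset.sum_singleton, qu_top, ph_top,
    Finset.card_empty, pow_zero, mul_one]

open scoped Classical in
theorem phs_mul (hQUO : T_QUO) (hPHN : T_PHN) {f g : Ideal (𝓞 K)} (hf : f ≠ ⊥) (hg : g ≠ ⊥)
    (h : f ⊔ g = ⊤) : phs (f * g) = phs f * phs g := by
  obtain ⟨-, -, -, h1⟩ := hQUO K f hf
  obtain ⟨hdis, hmem, hqg, hquo⟩ := h1 g hg h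
  obtain ⟨-, hgS, -, -⟩ := hQUO K g hg
  obtain ⟨-, hfS, -, -⟩ := hQUO K f hf
  obtain ⟨-, hph, -⟩ := hPHN K
  have hpf : pf (f * g) = pf f ∪ pf g := by
    ext P
    rw [hmem P, Finset.mem_union]
  rw [phs, phs, phs, hpf, Finset.sum_mul_sum, ← Finset.sum_product']
  symm
  refine Finset.sum_bij' (fun p _ => p.1 ∪ p.2) (fun U _ => (U ∩ pf f, U ∩ pf g)) ?_ ?_ ?_ ?_ ?_
  · rintro ⟨S, T⟩ hp
    rw [Finset.mem_product, Finset.mem_powerset, Finset.mem_powerset] at hp
    rw [Finset.mem_powerset]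
    exact Finset.union_subset_union hp.1 hp.2
  · intro U _
    rw [Finset.mem_product, Finset.mem_powerset, Finset.mem_powerset]
    exact ⟨Finset.inter_subset_right, Finset.inter_subset_right⟩
  · rintro ⟨S, T⟩ hp
    rw [Finset.mem_product, Finset.mem_powerset, Finset.mem_powerset] at hp
    obtain ⟨hS, hT⟩ := hp
    simp only at hS hT
    have e1 : (S ∪ T) ∩ pf f = S := by
      ext P
      simp only [Finset.mem_inter, Finset.mem_union]
      constructor
      · rintro ⟨h2 | h2, h3⟩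
        · exact h2
        · exact absurd (hT h2) (Finset.disjoint_left.1 hdis h3)
      · exact fun h2 => ⟨Or.inl h2, hS h2⟩
    have e2 : (S ∪ T) ∩ pf g = T := by
      ext P
      simp only [Finset.mem_inter, Finset.mem_union]
      constructor
      · rintro ⟨h2 | h2, h3⟩
        · exact absurd h3 (Finset.disjoint_left.1 hdis (hS h2))
        · exact h2
      · exact fun h2 => ⟨Or.inr h2, hT h2⟩
    simp only [e1, e2]
  · intro U hU
    rw [Finset.mem_powerset] at hU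
    simp only
    rw [← Finset.inter_union_distrib_left]
    exact Finset.inter_eq_left.2 hU
  · rintro ⟨S, T⟩ hp
    rw [Finset.mem_product, Finset.mem_powerset, Finset.mem_powerset] at hp
    obtain ⟨hS, hT⟩ := hp
    simp only at hS hT
    obtain ⟨-, -, h4, h5, -⟩ := hfS S hS
    obtain ⟨-, h7, h6, -, -⟩ := hgS T hT
    have h8 : qu f S ⊔ qu g T = ⊤ := by
      have h9 := (hqg S hS).2
      rw [eq_top_iff, ← h9]
      exact sup_le_sup_left h7 _
    have hST : Disjoint S T := Finset.disjoint_of_subset_left hS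
      (Finset.disjoint_of_subset_right hT hdis)
    simp only
    rw [hquo S T hS hT, hph _ _ h4 h6 h8, Finset.card_union_of_disjoint hST, pow_add]
    ring

theorem phs_pow (P : PrI K) (e : ℕ) :
    pf (P.1 ^ (e + 1)) = {P} ∧ phs (P.1 ^ (e + 1)) = ph (P.1 ^ (e + 1)) - ph (P.1 ^ e) := by
  classical
  have hne : P.1 ^ (e + 1) ≠ ⊥ := pow_ne_zero _ P.2.2
  have h1 : pf (P.1 ^ (e + 1)) = {P} := by
    ext Q
    rw [mem_pf hne, Finset.mem_singleton]
    constructor
    · intro h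
      have h2 : P.1 ≤ Q.1 := Q.2.1.le_of_pow_le h
      have h3 : P.1.IsMaximal := P.2.1.isMaximal P.2.2
      exact Subtype.ext (h3.eq_of_le Q.2.1.ne_top h2).symm
    · rintro rfl
      exact Ideal.pow_le_self (Nat.succ_ne_zero e)
  have h2 : qu (P.1 ^ (e + 1)) {P} = P.1 ^ e := qu_eq (by rw [idS_singleton, pow_succ'])
  refine ⟨h1, ?_⟩
  have h3 : ({P} : Finset (PrI K)).powerset = {∅, {P}} := by
    ext S
    rw [Finset.mem_powerset, Finset.subset_singleton_iff, Finset.mem_insert, Finset.mem_singleton]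
  rw [phs, h1, h3, Finset.sum_pair (Finset.singleton_ne_empty P).symm, qu_empty, h2,
    Finset.card_empty, Finset.card_singleton]
  ring

/-- the three inequalities -/
def G (f : Ideal (𝓞 K)) : Prop := f ≠ ⊥ →
  0 ≤ phs f ∧ phs f ≤ ph f ∧ nm f * ∏ P ∈ pf f, (1 - 2 / np P) ≤ phs f

theorem nm_pos' {f : Ideal (𝓞 K)} (hf : f ≠ ⊥) : 0 < nm f := by
  rw [nm]
  have : Ideal.absNorm f ≠ 0 := by rw [Ne, Ideal.absNorm_eq_zero_iff]; exact hf
  exact_mod_cast Nat.pos_of_ne_zero this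

theorem G_pow (hPHN : T_PHN) (P : PrI K) (i : ℕ) : G (P.1 ^ i) := by
  intro _
  obtain ⟨-, -, hpp⟩ := hPHN K
  have hN := two_le_np P
  have hnm : ∀ j : ℕ, nm (P.1 ^ j) = np P ^ j := by
    intro j
    rw [nm, map_pow, Nat.cast_pow]
    rfl
  match i with
  | 0 =>
    rw [pow_zero, Ideal.one_eq_top, phs_top, ph_top, nm_top, pf_top, Finset.prod_empty]
    norm_num
  | 1 =>
    obtain ⟨h1, h2⟩ := phs_pow P 0
    have h3 := hpp P 0
    rw [zero_add] at h1 h2 h3
    rw [pow_zero, Ideal.one_eq_top, ph_top, h3] at h2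
    rw [h1, h2, h3, Finset.prod_singleton, hnm]
    refine ⟨by norm_num; linarith, by linarith, ?_⟩
    have : np P ^ 1 * (1 - 2 / np P) = np P - 2 := by
      field_simp
    rw [this]
    norm_num
    linarith
  | e + 2 =>
    obtain ⟨h1, h2⟩ := phs_pow P (e + 1)
    have h3 := hpp P (e + 1)
    have h4 := hpp P e
    rw [show e + 1 + 1 = e + 2 from rfl] at h1 h2 h3
    rw [h3, h4] at h2
    rw [h1, h2, h3, Finset.prod_singleton, hnm]
    have h5 : 0 < np P ^ e := pow_pos (by linarith) e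
    have h6 : np P ^ (e + 1) * (np P - 1) - np P ^ e * (np P - 1) = np P ^ e * (np P - 1) ^ 2 := by
      ring
    rw [h6]
    refine ⟨by positivity, ?_, ?_⟩
    · rw [pow_succ (np P) e, mul_assoc]
      exact mul_le_mul_of_nonneg_left (by nlinarith) h5.le
    · have h7 : np P ^ (e + 2) * (1 - 2 / np P) = np P ^ e * (np P * (np P - 2)) := by
        field_simp
        ring
      rw [h7]
      exact mul_le_mul_of_nonneg_left (by nlinarith) h5.le

theorem G_mul (hQUO : T_QUO) (hPHN : T_PHN) {f g : Ideal (𝓞 K)} (h : IsRelPrime f g) (hf : G f)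
    (hg : G g) : G (f * g) := by
  classical
  intro hne
  have hf0 : f ≠ ⊥ := fun h0 => hne (by rw [h0, Ideal.bot_mul])
  have hg0 : g ≠ ⊥ := fun h0 => hne (by rw [h0, Ideal.mul_bot])
  obtain ⟨a1, a2, a3⟩ := hf hf0
  obtain ⟨b1, b2, b3⟩ := hg hg0
  have hc : f ⊔ g = ⊤ := by
    exact Ideal.isUnit_iff.1 (h (Ideal.dvd_iff_le.2 le_sup_left) (Ideal.dvd_iff_le.2 le_sup_right))
  obtain ⟨-, -, -, h1⟩ := hQUO K f hf0
  obtain ⟨hdis, hmem, -, -⟩ := h1 g hg0 hc
  obtain ⟨-, hph, -⟩ := hPHN K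
  have hpf : pf (f * g) = pf f ∪ pf g := by
    ext P
    rw [hmem P, Finset.mem_union]
  rw [phs_mul hQUO hPHN hf0 hg0 hc, hph f g hf0 hg0 hc, nm_mul, hpf,
    Finset.prod_union hdis]
  refine ⟨mul_nonneg a1 b1, mul_le_mul a2 b2 b1 (a1.trans a2), ?_⟩
  have hpr : ∀ S : Finset (PrI K), 0 ≤ ∏ P ∈ S, (1 - 2 / np P) := by
    intro S
    refine Finset.prod_nonneg fun P _ => ?_
    have := two_le_np P
    rw [sub_nonneg, div_le_one (by linarith)]
    exact this
  calc nm f * nm g * ((∏ P ∈ pf f, (1 - 2 / np P)) * ∏ P ∈ pf g, (1 - 2 / np P))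
      = (nm f * ∏ P ∈ pf f, (1 - 2 / np P)) * (nm g * ∏ P ∈ pf g, (1 - 2 / np P)) := by ring
    _ ≤ phs f * phs g := mul_le_mul a3 b3 (mul_nonneg (nm_pos' hg0).le (hpr _)) a1

theorem G_all (hQUO : T_QUO) (hPHN : T_PHN) (f : Ideal (𝓞 K)) : G f := by
  refine UniqueFactorizationMonoid.induction_on_coprime f (fun h => absurd rfl h) ?_ ?_ ?_
  · intro x hx _
    have h1 : x = ⊤ := Ideal.isUnit_iff.1 hx
    rw [h1, phs_top, ph_top, nm_top, pf_top, Finset.prod_empty]
    norm_num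
  · intro p i hp
    have h1 : p ≠ ⊥ := hp.ne_zero
    exact G_pow hPHN ⟨p, Ideal.isPrime_of_prime hp, h1⟩ i
  · intro x y hxy hx hy
    exact G_mul hQUO hPHN hxy hx hy

theorem one_sub_sum_le (S : Finset (PrI K)) :
    1 - ∑ P ∈ S, 2 / np P ≤ ∏ P ∈ S, (1 - 2 / np P) ∧ ∏ P ∈ S, (1 - 2 / np P) ≤ 1 ∧
      0 ≤ ∏ P ∈ S, (1 - 2 / np P) := by
  classical
  induction S using Finset.induction_on with
  | empty => simp
  | insert P S hP ih =>
    obtain ⟨h1, h2, h3⟩ := ih
    rw [Finset.sum_insert hP, Finset.prod_insert hP]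
    have h4 := two_le_np P
    have h5 : 0 ≤ 2 / np P := by positivity
    have h6 : 2 / np P ≤ 1 := by rw [div_le_one (by linarith)]; exact h4
    refine ⟨by nlinarith, by nlinarith, mul_nonneg (by linarith) h3⟩

end

theorem pf_PHM (hQUO : T_QUO) (hPHN : T_PHN) : T_PHM := by
  intro K _ _
  refine ⟨fun f g hf hg h => phs_mul hQUO hPHN hf hg h, phs_top, ?_⟩
  intro f hf
  obtain ⟨h1, h2, h3⟩ := G_all hQUO hPHN f hf
  refine ⟨h1, h2, le_trans ?_ h3⟩
  obtain ⟨h4, -, -⟩ := one_sub_sum_le (pf f)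
  have h5 := nm_pos' hf
  have h6 : ∑ P ∈ pf f, 2 * (nm f / np P) = nm f * ∑ P ∈ pf f, 2 / np P := by
    rw [Finset.mul_sum]
    exact Finset.sum_congr rfl fun P _ => by ring
  rw [h6]
  nlinarith

end Pool.Agent.H77.HH
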