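import Pool.Agent.H33.HH.TD
import Pool.Agent.H33.HH.SMF
import Pool.Agent.H77.HH.PHM

/-!
# Half of all, row MZ: the number of the characters
-/

set_option autoImplicit false

open NumberField Complex Filter Topology MeasureTheory
open scoped ContDiff nonZeroDivisors

namespace Pool.Agent.H77.HH

open Pool.Agent.H33.HH Pool.Agent.H28.RC Pool.Agent.H37.CV

section

variable {K : Type} [Field K] [NumberField K]

open scoped Classical in
theorem sumC_mono {P X : ℝ} {f g : Ideal (𝓞 K) → ℝ} (hf : ∀ I, X ≤ nm I → f I = 0)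
    (hg : ∀ I, X ≤ nm I → g I = 0) (h : ∀ I, I ≠ ⊥ → Cp P I → f I ≤ g I) :
    sumC P f ≤ sumC P g := by
  unfold sumC
  refine Summable.tsum_le_tsum (fun I => ?_) (sumC_summable (P := P) hf)
    (sumC_summable (P := P) hg)
  by_cases h1 : Cp P I.1
  · simp only [h1, if_true]
    exact h I.1 I.2 h1
  · simp only [h1, if_false]
    exact le_refl _

theorem W_zero {W : ℝ → ℝ} (hW : IsW W) {Q : ℝ} (hQ : 0 < Q) {I : Ideal (𝓞 K)} (h : Q ≤ nm I) :
    W (nm I / Q) = 0 := hW.high _ (by rw [le_div_iff₀ hQ, one_mul]; exact h)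

open scoped Classical in
theorem sumW_le {W : ℝ → ℝ} (hW : IsW W) {P Q : ℝ} (hQ : 0 < Q) :
    sumC (K := K) P (fun q => W (nm q / Q)) ≤
      ({I : Ideal (𝓞 K) | I ≠ ⊥ ∧ Cp P I ∧ nm I ≤ Q}.ncard : ℝ) := by
  have hfin := fin_nm (K := K) Q
  have e1 : sumC (K := K) P (fun q => W (nm q / Q)) =
      ∑ I ∈ hfin.toFinset, if Cp P I.1 then W (nm I.1 / Q) else 0 := by
    unfold sumC
    refine tsum_eq_sum fun I hI => ?_
    rw [Set.Finite.mem_toFinset] at hI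
    have h0 : (fun q => W (nm q / Q)) I.1 = 0 := W_zero hW hQ (not_lt.1 hI)
    rw [h0]
    simp
  rw [e1]
  have e2 : ∑ I ∈ hfin.toFinset, (if Cp P I.1 then W (nm I.1 / Q) else 0) ≤
      ∑ I ∈ hfin.toFinset, (if Cp P I.1 then (1 : ℝ) else 0) := by
    refine Finset.sum_le_sum fun I _ => ?_
    split_ifs
    · exact (hW.bd _).2
    · exact le_refl _
  refine e2.trans ?_
  rw [Finset.sum_boole, Nat.cast_le]
  have hfin2 : {I : Ideal (𝓞 K) | I ≠ ⊥ ∧ Cp P I ∧ nm I ≤ Q}.Finite := by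
    refine (Ideal.finite_setOfPred_absNorm_le (S := 𝓞 K) ⌊Q⌋₊).subset ?_
    rintro I ⟨-, -, hI⟩
    exact Nat.le_floor hI
  rw [← Finset.card_image_of_injective _ (Subtype.val_injective : Function.Injective
    (Subtype.val : NI K → Ideal (𝓞 K))), ← Set.ncard_coe_finset]
  refine Set.ncard_le_ncard ?_ hfin2
  intro I hI
  rw [Finset.coe_image] at hI
  obtain ⟨J, hJ, rfl⟩ := hI
  rw [Finset.mem_coe, Finset.mem_filter, Set.Finite.mem_toFinset] at hJ
  exact ⟨J.2, hJ.2, le_of_lt hJ.1⟩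

theorem ph_le_nm (I : Ideal (𝓞 K)) : ph I ≤ nm I := by
  unfold ph
  have h1 : 0 ≤ nm I := by unfold nm; positivity
  have h2 : ∏ p ∈ pf I, (1 - 1 / np p) ≤ 1 := by
    refine Finset.prod_le_one (fun p _ => ?_) fun p _ => ?_
    · have := two_le_np p
      rw [sub_nonneg, div_le_one (by linarith)]
      linarith
    · have := two_le_np p
      have h3 : 0 ≤ 1 / np p := by positivity
      linarith
  calc nm I * ∏ p ∈ pf I, (1 - 1 / np p) ≤ nm I * 1 := mul_le_mul_of_nonneg_left h2 h1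
    _ = nm I := mul_one _

theorem rk_nonneg' (P : ℝ) : 0 ≤ rk K P := by
  unfold rk rh
  refine mul_nonneg ?_ (Finset.prod_nonneg fun p _ => ?_)
  · have h1 : 0 ≤ wu K := by unfold wu; positivity
    have h2 : 0 ≤ hc K := by unfold hc; positivity
    exact div_nonneg (by positivity) (mul_nonneg h1 (Real.sqrt_nonneg _))
  · have := two_le_np p
    rw [sub_nonneg, div_le_one (by linarith)]
    linarith

theorem cop {P : ℝ} {k q : Ideal (𝓞 K)} (hk : Sm' P k) (hq : Cp P q) : k ⊔ q = ⊤ := by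
  by_contra h
  obtain ⟨M, hM, hle⟩ := Ideal.exists_le_maximal _ h
  have h1 : k ≤ M := le_sup_left.trans hle
  have h2 : q ≤ M := le_sup_right.trans hle
  have h3 : M ≠ ⊥ := fun h0 => hk.1 (le_bot_iff.1 (h0 ▸ h1))
  have h4 := hk.2 ⟨M, hM.isPrime, h3⟩ h1
  have h5 := hq ⟨M, hM.isPrime, h3⟩ h2
  linarith

end

theorem pf_MZ (h1 : T_NPR) (h2 : T_PHM) (h3 : T_PHW) (h4 : T_TWA) (h5 : T_CNT) : T_MZ := by
  intro K _ _ _ W hW hW1 ε₁ hε₁
  set ε := min ε₁ 1 with hεd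
  have hε : 0 < ε := lt_min hε₁ one_pos
  have hε1 : ε ≤ ε₁ := min_le_left _ _
  have hεle : ε ≤ 1 := min_le_right _ _
  obtain ⟨P₀, hP₀⟩ := h3 K W hW hW1 ε hε
  refine ⟨P₀, fun P hP k hk ε₂ hε₂ => ?_⟩
  obtain ⟨Q₁, hQ₁, hlow⟩ := hP₀ P hP
  obtain ⟨C₁, hC₁, hN⟩ := h1 K
  obtain ⟨hmul, -, hphs⟩ := h2 K
  obtain ⟨C₂, hC₂, hT⟩ := h4 K P W hW
  obtain ⟨C₃, hC₃, hcnt⟩ := h5 K P
  obtain ⟨δ, hδ, hδ0⟩ := hW.low
  have hrk : 0 ≤ rk K P := rk_nonneg' P
  have hwu : 0 ≤ wu K := by unfold wu; positivity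
  have hhc : 0 ≤ hc K := by unfold hc; positivity
  set A := hc K / wu K * phs k with hA
  have hA0 : 0 ≤ A := mul_nonneg (div_nonneg hhc hwu) (hphs k hk.1).1
  set E := A * C₂ + C₁ * (rk K P + C₃) with hE
  have hE0 : 0 ≤ E := by positivity
  refine ⟨max (max Q₁ 1) (max (1 / δ) ((E / ε₂) ^ 4)), (le_max_right _ _).trans (le_max_left _ _),
    fun Q hQ => ?_⟩
  have hQQ₁ : Q₁ ≤ Q := ((le_max_left _ _).trans (le_max_left _ _)).trans hQ
  have hQ1 : 1 ≤ Q := ((le_max_right _ _).trans (le_max_left _ _)).trans hQ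
  have hQδ : 1 / δ ≤ Q := ((le_max_left _ _).trans (le_max_right _ _)).trans hQ
  have hQE : (E / ε₂) ^ 4 ≤ Q := ((le_max_right _ _).trans (le_max_right _ _)).trans hQ
  have hQ0 : 0 < Q := by linarith
  set S0 := sumC (K := K) P fun q => W (nm q / Q) with hS0
  set S1 := sumC (K := K) P fun q => W (nm q / Q) * phs q with hS1
  -- pointwise comparison
  have hpt : ∀ q : Ideal (𝓞 K), q ≠ ⊥ → Cp P q →
      |W (nm q / Q) * ((Pr K (k * q)).ncard : ℝ) - A * (W (nm q / Q) * phs q)| ≤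
        C₁ * W (nm q / Q) := by
    intro q hq hqP
    have hW0 := (hW.bd (nm q / Q)).1
    by_cases hz : W (nm q / Q) = 0
    · rw [hz]
      simp
    have hd : δ < nm q / Q := by
      by_contra hcon
      exact hz (hδ0 _ (not_lt.1 hcon))
    have hnm : 1 < nm q := by
      rw [lt_div_iff₀ hQ0] at hd
      have h6 : 1 ≤ δ * Q := by
        rw [div_le_iff₀ hδ] at hQδ
        linarith [mul_comm δ Q]
      linarith
    have hqt : q ≠ ⊤ := by
      rintro rfl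
      rw [nm_top] at hnm
      exact lt_irrefl _ hnm
    have hkq : k * q ≠ ⊥ := mul_ne_zero hk.1 hq
    have hkt : k * q ≠ ⊤ := fun h0 => hqt (top_le_iff.1 (h0 ▸ Ideal.mul_le_right))
    have h6 := hN (k * q) hkq hkt
    rw [hmul k q hk.1 hq (cop hk hqP)] at h6
    have h7 : W (nm q / Q) * ((Pr K (k * q)).ncard : ℝ) - A * (W (nm q / Q) * phs q) =
        W (nm q / Q) * (((Pr K (k * q)).ncard : ℝ) - hc K / wu K * (phs k * phs q)) := by
      rw [hA]; ring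
    rw [h7, abs_mul, abs_of_nonneg hW0, mul_comm C₁]
    exact mul_le_mul_of_nonneg_left h6 hW0
  have hz1 : ∀ (F : Ideal (𝓞 K) → ℝ) (I : Ideal (𝓞 K)), Q ≤ nm I → W (nm I / Q) * F I = 0 :=
    fun F I hI => by rw [W_zero hW hQ0 hI, zero_mul]
  have hz0 : ∀ I : Ideal (𝓞 K), Q ≤ nm I → W (nm I / Q) = 0 := fun I hI => W_zero hW hQ0 hI
  have up : M0 P Q W k ≤ A * S1 + C₁ * S0 := by
    have h6 : A * S1 + C₁ * S0 = sumC (K := K) P fun q =>
        A * (W (nm q / Q) * phs q) + C₁ * W (nm q / Q) := by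
      rw [hS1, hS0, ← sumC_mul, ← sumC_mul, sumC_add (X := Q)]
      · intro I hI; rw [hz1 phs I hI, mul_zero]
      · intro I hI; rw [hz0 I hI, mul_zero]
    rw [h6, M0]
    refine sumC_mono (X := Q) (hz1 _) ?_ ?_
    · intro I hI
      rw [hz1 phs I hI, hz0 I hI, mul_zero, mul_zero, add_zero]
    · intro q hq hqP
      have := abs_le.1 (hpt q hq hqP)
      linarith
  have lo : A * S1 ≤ M0 P Q W k + C₁ * S0 := by
    have h6 : M0 P Q W k + C₁ * S0 = sumC (K := K) P fun q =>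
        W (nm q / Q) * ((Pr K (k * q)).ncard : ℝ) + C₁ * W (nm q / Q) := by
      rw [M0, hS0, ← sumC_mul, sumC_add (X := Q)]
      · exact hz1 _
      · intro I hI; rw [hz0 I hI, mul_zero]
    rw [h6, hS1, ← sumC_mul]
    refine sumC_mono (X := Q) ?_ ?_ ?_
    · intro I hI
      rw [hz1 phs I hI, mul_zero]
    · intro I hI
      rw [hz0 I hI, zero_mul, mul_zero, add_zero]
    · intro q hq hqP
      have := abs_le.1 (hpt q hq hqP)
      linarith
  have hS1T : S1 ≤ TW K P Q W := by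
    rw [hS1, TW]
    refine sumC_mono (X := Q) (hz1 _) (hz1 _) fun q hq _ => ?_
    exact mul_le_mul_of_nonneg_left ((hphs q hq).2.1.trans (ph_le_nm q)) (hW.bd _).1
  have hS0le : S0 ≤ (rk K P + C₃) * Q ^ (7 / 4 : ℝ) := by
    have h6 : S0 ≤ _ := sumW_le (K := K) hW (P := P) hQ0
    have h7 := (abs_le.1 (hcnt Q hQ1)).2
    have h8 : Q ^ (3 / 4 : ℝ) ≤ Q ^ (7 / 4 : ℝ) :=
      Real.rpow_le_rpow_of_exponent_le hQ1 (by norm_num)
    have h9 : Q ≤ Q ^ (7 / 4 : ℝ) := by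
      calc Q = Q ^ (1 : ℝ) := (Real.rpow_one _).symm
        _ ≤ _ := Real.rpow_le_rpow_of_exponent_le hQ1 (by norm_num)
    nlinarith [mul_le_mul_of_nonneg_left h8 hC₃, mul_le_mul_of_nonneg_left h9 hrk]
  have hTQ := abs_le.1 (hT Q hQ1)
  have hlo := hlow Q hQQ₁
  have hQp : 0 ≤ Q ^ (7 / 4 : ℝ) := by positivity
  have hEQ : E * Q ^ (7 / 4 : ℝ) ≤ ε₂ * Q ^ 2 := by
    have h6 : E / ε₂ ≤ Q ^ (1 / 4 : ℝ) := by
      have h7 : ((E / ε₂) ^ 4) ^ (1 / 4 : ℝ) ≤ Q ^ (1 / 4 : ℝ) :=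
        Real.rpow_le_rpow (by positivity) hQE (by norm_num)
      have h8 : ((E / ε₂) ^ 4) ^ (1 / 4 : ℝ) = E / ε₂ := by
        rw [← Real.rpow_natCast (E / ε₂) 4, ← Real.rpow_mul (by positivity)]
        norm_num
      rwa [h8] at h7
    have h7 : E ≤ ε₂ * Q ^ (1 / 4 : ℝ) := by
      rw [div_le_iff₀ hε₂] at h6
      linarith [mul_comm ε₂ (Q ^ (1 / 4 : ℝ))]
    calc E * Q ^ (7 / 4 : ℝ) ≤ ε₂ * Q ^ (1 / 4 : ℝ) * Q ^ (7 / 4 : ℝ) :=
          mul_le_mul_of_nonneg_right h7 hQp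
      _ = ε₂ * Q ^ 2 := by
          rw [mul_assoc, ← Real.rpow_add hQ0]
          norm_num
  have hA0eq : A0 P Q W k = A * (rk K P * W1 W * Q ^ 2) := by
    rw [A0, hA]; ring
  have hX : 0 ≤ rk K P * W1 W * Q ^ 2 := by positivity
  set X := rk K P * W1 W * Q ^ 2 with hXd
  set Y := Q ^ (7 / 4 : ℝ) with hY
  have hCS : C₁ * S0 ≤ C₁ * ((rk K P + C₃) * Y) := mul_le_mul_of_nonneg_left hS0le hC₁
  have hEY : E * Y = A * (C₂ * Y) + C₁ * ((rk K P + C₃) * Y) := by rw [hE]; ring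
  constructor
  · have h6 : (1 - ε) * (X - C₂ * Y) ≤ S1 := by
      refine le_trans (mul_le_mul_of_nonneg_left ?_ (by linarith)) hlo
      linarith [hTQ.1]
    have h7 : A * ((1 - ε) * (X - C₂ * Y)) ≤ A * S1 := mul_le_mul_of_nonneg_left h6 hA0
    have h8 : A * ((1 - ε) * (C₂ * Y)) ≤ A * (C₂ * Y) := by
      refine mul_le_mul_of_nonneg_left ?_ hA0
      have : 0 ≤ C₂ * Y := mul_nonneg hC₂ hQp
      nlinarith
    have h9 : (1 - ε₁) * (A * X) ≤ (1 - ε) * (A * X) :=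
      mul_le_mul_of_nonneg_right (by linarith) (mul_nonneg hA0 hX)
    rw [hA0eq]
    have h10 : A * ((1 - ε) * (X - C₂ * Y)) = (1 - ε) * (A * X) - A * ((1 - ε) * (C₂ * Y)) := by
      ring
    linarith
  · have h6 : A * S1 ≤ A * (X + C₂ * Y) := by
      refine mul_le_mul_of_nonneg_left ?_ hA0
      linarith [hTQ.2]
    rw [hA0eq]
    have h10 : A * (X + C₂ * Y) = A * X + A * (C₂ * Y) := by ring
    linarith

end Pool.Agent.H77.HH
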