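import Pool.Agent.H33.HH.TD
import Pool.Agent.H86.CV.DV

/-!
# Half of all, row DVB: the number of the divisors of an ideal
-/

set_option autoImplicit false

open NumberField Complex Filter Topology MeasureTheory
open scoped ContDiff nonZeroDivisors

namespace Pool.Agent.H77.HH

open Pool.Agent.H33.HH Pool.Agent.H28.RC Pool.Agent.H37.CV

theorem pf_DVB : T_DVB := by
  classical
  intro K _ _ ε hε
  have hε2 : 0 < ε / 2 := by positivity
  obtain ⟨C₁, hC₁, h₁, -⟩ := (Pool.Agent.H86.CV.pf_DV K).1 (ε / 2) hε2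
  obtain ⟨C₂, hC₂, h₂⟩ := Pool.Agent.H86.CV.dv_tau 1 (ε / 2) hε2
  refine ⟨C₁ * C₂, one_le_mul_of_one_le_of_one_le hC₁ hC₂, fun I hI => ?_⟩
  have hN0 : Ideal.absNorm I ≠ 0 := fun h => hI (Ideal.absNorm_eq_zero_iff.1 h)
  have hN1 : 1 ≤ Ideal.absNorm I := Nat.one_le_iff_ne_zero.2 hN0
  have hdvd : ∀ d : Ideal (𝓞 K), I ≤ d → Ideal.absNorm d ∣ Ideal.absNorm I := fun d hd =>
    Ideal.absNorm_dvd_absNorm_of_le hd
  have hfin : {d : Ideal (𝓞 K) | I ≤ d}.Finite := by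
    refine (Ideal.finite_setOf_absNorm_le (Ideal.absNorm I)).subset fun d hd => ?_
    exact Nat.le_of_dvd (Nat.pos_of_ne_zero hN0) (hdvd d hd)
  rw [Set.ncard_eq_toFinset_card _ hfin]
  have hmaps : ∀ d ∈ hfin.toFinset, Ideal.absNorm d ∈ (Ideal.absNorm I).divisors := by
    intro d hd
    rw [Set.Finite.mem_toFinset] at hd
    exact Nat.mem_divisors.2 ⟨hdvd d hd, hN0⟩
  rw [Finset.card_eq_sum_card_fiberwise hmaps, Nat.cast_sum]
  have hN : (0 : ℝ) < Ideal.absNorm I := by exact_mod_cast Nat.pos_of_ne_zero hN0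
  have h3 : ∀ m ∈ (Ideal.absNorm I).divisors,
      (((hfin.toFinset.filter fun d => Ideal.absNorm d = m).card : ℕ) : ℝ) ≤
        C₁ * (Ideal.absNorm I : ℝ) ^ (ε / 2) := by
    intro m hm
    have hm1 : 1 ≤ m := Nat.pos_of_mem_divisors hm
    have hm2 : m ≤ Ideal.absNorm I := Nat.divisor_le hm
    refine (h₁ m hm1 _ fun d hd => (Finset.mem_filter.1 hd).2).trans ?_
    refine mul_le_mul_of_nonneg_left ?_ (by linarith)
    exact Real.rpow_le_rpow (Nat.cast_nonneg _) (by exact_mod_cast hm2) hε2.le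
  refine (Finset.sum_le_sum h3).trans ?_
  rw [Finset.sum_const, nsmul_eq_mul]
  have h4 := h₂ (Ideal.absNorm I) hN1
  rw [pow_one] at h4
  have h5 : 0 ≤ C₁ * (Ideal.absNorm I : ℝ) ^ (ε / 2) := by positivity
  calc ((Ideal.absNorm I).divisors.card : ℝ) * (C₁ * (Ideal.absNorm I : ℝ) ^ (ε / 2))
      ≤ (C₂ * (Ideal.absNorm I : ℝ) ^ (ε / 2)) * (C₁ * (Ideal.absNorm I : ℝ) ^ (ε / 2)) :=
        mul_le_mul_of_nonneg_right h4 h5
    _ = C₁ * C₂ * ((Ideal.absNorm I : ℝ) ^ (ε / 2) * (Ideal.absNorm I : ℝ) ^ (ε / 2)) := by ring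
    _ = C₁ * C₂ * nm I ^ ε := by
        rw [← Real.rpow_add hN, add_halves]
        rfl

end Pool.Agent.H77.HH
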